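import Pool.Agent.PFE.StmtsS
import Pool.Agent.PFC.B5.CUG_49
import Pool.Agent.Helper70_PFC.QFCa
import Pool.Agent.Helper92_PFC.QFM

/-!
# Squad PFE, row FLA: the structure of `Y(Q)` for any subgroup `Q` (helper29)
-/

open scoped BigOperators TensorProduct

noncomputable section

namespace Pool.Agent.PFE.H29

open Pool.Agent.PFC Pool.Agent.PFE Pool.Agent.PFE.S
open Pool.Agent.PFC.B5a (QA be zin)

/-- The stabilisers for `Y(Q)`. -/
theorem qpe (ℓ : ℕ) [Fact ℓ.Prime] (F V E A B : Type) [Field F]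
    [CharP F ℓ] [CommGroup V] [Fintype V] [Group E] [Ring A] [Algebra F A] [Ring B] [Algebra F B]
    (φ : E →* MulAut V) (E1 : Subgroup E) (α : V →* A) (Q : Subgroup V)
    (q : Cz F α Q →ₐ[F] B) (hV : IsPGroup ℓ V) (hE1 : ∀ e : E, e ∈ E1 ↔ ∀ u ∈ Q, φ e u = u)
    (hqa : QA F α Q q)
    (hps : PS (fun K => ∃ (e : E) (R : Subgroup V), K = tw (φ e).toMonoidHom R) (bi F α)) :
    PS (fun K => ∃ (e : E1) (R : Subgroup V), K = tw (φ.comp E1.subtype e).toMonoidHom R)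
      (bi F (be F α Q q)) := by
  obtain ⟨Ω, _, _, b, c, hfr, hst⟩ := hps
  obtain ⟨Ω', i1, i2, j, b', c', hfr', hj, hj2, hj3, -, -⟩ :=
    Pool.Agent.PFC.B5a.H70.qfc H49d.bki ℓ F V A B α Q q Ω b c hV hqa hfr
  refine ⟨Ω', i1, i2, b', c', hfr', fun ω' => ?_⟩
  obtain ⟨e, R, hR⟩ := hst (j ω')
  have hs : MulAction.stabilizer (V × V) ω' = MulAction.stabilizer (V × V) (j ω') := by
    ext w
    rw [MulAction.mem_stabilizer_iff, MulAction.mem_stabilizer_iff, ← hj3]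
    exact ⟨fun h => by rw [h], fun h => hj h⟩
  have he : e ∈ E1 := by
    refine (hE1 e).2 fun u hu => ?_
    have h1 : ((u, u) : V × V) ∈ MulAction.stabilizer (V × V) (j ω') := by
      rw [MulAction.mem_stabilizer_iff]
      exact (hj2 (j ω')).1 ⟨ω', rfl⟩ u hu
    rw [hR] at h1
    obtain ⟨r, -, hr2⟩ := h1
    have h2 : φ e r = u := congrArg Prod.fst hr2
    have h3 : r = u := congrArg Prod.snd hr2
    rw [h3] at h2
    exact h2
  exact ⟨⟨e, he⟩, R, by rw [hs, hR]; rfl⟩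

theorem cj_apply {F V A : Type} [Field F] [CommGroup V] [Ring A] [Algebra F A] (α : V →* A)
    (v : V) (a : A) : cj F α v a = α v * (a * α v⁻¹) := rfl

/-- an element which commutes with `Q` is fixed by `Q` -/
theorem fx_of_com {F V A : Type} [Field F] [CommGroup V] [Ring A] [Algebra F A] {α : V →* A}
    {Q : Subgroup V} {a : A} (h : ∀ v ∈ Q, α v * a = a * α v) : a ∈ Fx (cj F α) Q := by
  intro v hv
  rw [cj_apply, ← mul_assoc, h v hv, mul_assoc, ← map_mul, mul_inv_cancel, map_one, mul_one]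

/-- an equivariant map maps relative traces to relative traces -/
theorem map_BK {F H M N : Type} [Field F] [Group H] [AddCommGroup M] [Module F M]
    [AddCommGroup N] [Module F N] (ρ : H →* (M →ₗ[F] M)) (ρ' : H →* (N →ₗ[F] N))
    (P : Subgroup H) (β : M →ₗ[F] N) (hβ : ∀ v m, β (ρ v m) = ρ' v (β m)) {x : M}
    (hx : x ∈ BK ρ P) : β x ∈ BK ρ' P := by
  have h1 : Submodule.map β (BK ρ P) ≤ BK ρ' P := by
    unfold BK
    rw [Submodule.map_span, Submodule.span_le]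
    rintro _ ⟨_, ⟨P', S, m, hP, hS, hm, rfl⟩, rfl⟩
    refine Submodule.subset_span ⟨P', S, β m, hP, hS, fun h hh => ?_, ?_⟩
    · rw [← hβ, hm h hh]
    · rw [map_sum]
      exact Finset.sum_congr rfl fun x _ => hβ x m
  exact h1 ⟨x, hx, rfl⟩

/-- FLA. -/
theorem fla : FlaStmt := by
  intro hQke hAbq hQtr ℓ _ F V E _ _ _ _ _ φ E1 Y B Q β s lam j hV hE1 hCP hABr hFrm hPS hBQ hRz
    hj hjj h1j
  obtain ⟨q, hqa, -, hbe⟩ := hAbq hQke ℓ F V Y B Q β s hV hABr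
  have hβ1 : β 1 = 1 := by
    rw [← map_one Y.ι, hABr.cov, map_one]
  have hVQ : ∀ v, Y.ι v ∈ Fx (cj F Y.ι) Q := fun v =>
    fx_of_com fun w _ => by rw [← map_mul, ← map_mul, mul_comm]
  have hjQ : j ∈ Fx (cj F Y.ι) Q := fun v _ => hj v (Subgroup.mem_top v)
  refine ⟨?_, ?_, ?_, fun e => ?_, ?_, ?_, ?_⟩
  · have h1 := H92.qfm H49d.bki ℓ F V Y.A B.A Y.ι Q q _ lam hV hqa hPS hFrm
    rwa [hbe] at h1
  · have h1 := qpe ℓ F V E Y.A B.A φ E1 Y.ι Q q hV hE1 hqa hPS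
    rwa [hbe] at h1
  · refine hQtr ℓ F V Y B (IA.gr F V) Q ⊤ hV hCP ⟨β, s, hABr⟩ ?_
    rw [sup_top_eq]
    exact hBQ
  · obtain ⟨y, hy⟩ := hRz e
    have hc1 : ∀ v ∈ Q, Y.ι v * (y : Y.A) = y * Y.ι v := by
      intro v hv
      rw [hy v, (hE1 e).1 e.2 v hv]
    have hc2 : ∀ v ∈ Q, Y.ι v * ((y⁻¹ : Y.Aˣ) : Y.A) = ((y⁻¹ : Y.Aˣ) : Y.A) * Y.ι v := by
      intro v hv
      have h1 : ((y⁻¹ : Y.Aˣ) : Y.A) * (Y.ι v * (y : Y.A)) * ((y⁻¹ : Y.Aˣ) : Y.A) =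
          ((y⁻¹ : Y.Aˣ) : Y.A) * ((y : Y.A) * Y.ι v) * ((y⁻¹ : Y.Aˣ) : Y.A) := by rw [hc1 v hv]
      rw [← mul_assoc, ← mul_assoc, Units.inv_mul, one_mul, mul_assoc, mul_assoc,
        Units.mul_inv, mul_one] at h1
      exact h1.symm
    have hf1 : (y : Y.A) ∈ Fx (cj F Y.ι) Q := fx_of_com hc1
    have hf2 : ((y⁻¹ : Y.Aˣ) : Y.A) ∈ Fx (cj F Y.ι) Q := fx_of_com hc2
    refine ⟨β y, β ((y⁻¹ : Y.Aˣ) : Y.A), ?_, ?_, fun u => ?_⟩
    · rw [← hABr.mul _ hf1 _ hf2, Units.mul_inv, hβ1]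
    · rw [← hABr.mul _ hf2 _ hf1, Units.inv_mul, hβ1]
    · rw [← hABr.cov, ← hABr.mul _ hf1 _ (hVQ u), hy u, hABr.mul _ (hVQ _) _ hf1, hABr.cov]
      rfl
  · intro v hv
    rw [← hABr.eb, hj v hv]
  · rw [← hABr.mul _ hjQ _ hjQ, hjj]
  · rw [← hβ1, ← map_sub]
    exact map_BK _ _ _ β hABr.eb h1j

end Pool.Agent.PFE.H29
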