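import Pool.Agent.PFE.StmtsE1

/-!
# Squad PFE, row LSC: a graded linear section with `1 ↦ 1` (helper29)
-/

open scoped BigOperators

noncomputable section

namespace Pool.Agent.PFE.H29

open Pool.Agent.PFE

/-- a linear map has a section on its range -/
theorem exists_sec {K N S : Type} [Field K] [AddCommGroup N] [Module K N] [AddCommGroup S]
    [Module K S] (p : N →ₗ[K] S) : ∃ g : S →ₗ[K] N, ∀ a, p (g (p a)) = p a := by
  obtain ⟨g0, hg0⟩ := p.rangeRestrict.exists_rightInverse_of_surjective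
    (LinearMap.range_eq_top.2 p.surjective_rangeRestrict)
  obtain ⟨g, hg⟩ := g0.exists_extend
  refine ⟨g, fun a => ?_⟩
  have h1 : g (p a) = g0 (p.rangeRestrict a) := by
    rw [← hg]
    rfl
  have h2 := LinearMap.congr_fun hg0 (p.rangeRestrict a)
  rw [h1]
  exact congrArg Subtype.val h2

/-- LSC. -/
theorem lsc : LscStmt := by
  classical
  intro K A X S _ _ _ _ _ _ _ y l χ L _ _ _ hM
  by_cases h10 : (1 : S) = 0
  · have hS : Subsingleton S := subsingleton_of_zero_eq_one h10.symm
    have h1J : (1 : A) ∈ Jx y l χ 1 := (L.ker 1 ⟨1, Nx_one y χ⟩).1 (Subsingleton.elim _ _)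
    obtain ⟨M, hM⟩ := hM
    have h1M : (1 : A) ∈ JP y l χ M := by
      refine Submodule.subset_span ⟨fun _ => 1, fun _ => ⟨1, h1J⟩, ?_⟩
      simp
    rw [hM, Submodule.mem_bot] at h1M
    exact ⟨0, by rw [LinearMap.zero_apply, h1M], fun x s => Submodule.zero_mem _,
      fun x s => Subsingleton.elim _ _⟩
  · choose g hg using fun x => exists_sec (L.p x)
    -- the sections in every degree
    have hgc : ∀ x s, L.p x (g x (L.c x s)) = L.c x s := by
      intro x s
      obtain ⟨a, ha⟩ := L.ps x s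
      rw [← ha, hg]
    obtain ⟨φ, hφ⟩ := Module.Projective.exists_dual_eq_one K h10
    -- the sections, with the correction in degree `1`
    let τ : X → (S →ₗ[K] A) := fun x =>
      (Nx y χ x).subtype ∘ₗ g x ∘ₗ L.c x +
        if x = 1 then (φ ∘ₗ L.c 1).smulRight (1 - (g 1 (L.c 1 1) : A)) else 0
    have hτ1 : ∀ s, τ 1 s = (g 1 (L.c 1 s) : A) + φ (L.c 1 s) • (1 - (g 1 (L.c 1 1) : A)) := by
      intro s
      change ((g 1 (L.c 1 s) : A) + (if (1 : X) = 1 then
        (φ ∘ₗ L.c 1).smulRight (1 - (g 1 (L.c 1 1) : A)) else 0) s) = _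
      rw [if_pos rfl]
      rfl
    have hτx : ∀ x s, x ≠ 1 → τ x s = (g x (L.c x s) : A) := by
      intro x s hx
      change ((g x (L.c x s) : A) + (if x = 1 then
        (φ ∘ₗ L.c 1).smulRight (1 - (g 1 (L.c 1 1) : A)) else 0) s) = _
      rw [if_neg hx, LinearMap.zero_apply, add_zero]
    have hτc : ∀ x x' s, x' ≠ x → τ x' (L.c x s) = 0 := by
      intro x x' s hx
      by_cases h : x' = 1
      · subst h
        rw [hτ1, L.co _ _ _ hx, map_zero, map_zero, zero_smul, add_zero]
        rfl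
      · rw [hτx _ _ h, L.co _ _ _ hx, map_zero]
        rfl
    have hτm : ∀ x s, ∃ h : τ x s ∈ Nx y χ x, L.p x ⟨τ x s, h⟩ = L.c x s := by
      intro x s
      by_cases h : x = 1
      · subst h
        have h1 : τ 1 s = ((g 1 (L.c 1 s) + φ (L.c 1 s) •
            ((⟨1, Nx_one y χ⟩ : Nx y χ 1) - g 1 (L.c 1 1)) : Nx y χ 1) : A) := by
          rw [hτ1]
          rfl
        have h2 : τ 1 s ∈ Nx y χ 1 := by
          rw [h1]
          exact Subtype.property _
        refine ⟨h2, ?_⟩
        have h3 : (⟨τ 1 s, h2⟩ : Nx y χ 1) = g 1 (L.c 1 s) + φ (L.c 1 s) •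
            ((⟨1, Nx_one y χ⟩ : Nx y χ 1) - g 1 (L.c 1 1)) := Subtype.ext h1
        rw [h3, map_add, map_smul, map_sub, hgc, hgc, L.one, L.c1, sub_self, smul_zero, add_zero]
      · have h2 : τ x s ∈ Nx y χ x := by
          rw [hτx _ _ h]
          exact Subtype.property _
        refine ⟨h2, ?_⟩
        have h3 : (⟨τ x s, h2⟩ : Nx y χ x) = g x (L.c x s) := Subtype.ext (hτx _ _ h)
        rw [h3, hgc]
    have hρ : ∀ x s, (∑ x', τ x') (L.c x s) = τ x (L.c x s) := by
      intro x s
      rw [LinearMap.sum_apply, Finset.sum_eq_single x]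
      · intro x' _ hx'
        exact hτc x x' s hx'
      · intro h
        exact absurd (Finset.mem_univ _) h
    refine ⟨∑ x, τ x, ?_, fun x s => ?_, fun x s => ?_⟩
    · have h1 := hρ 1 1
      rw [L.c1] at h1
      rw [h1, hτ1, L.c1, hφ, one_smul, add_sub_cancel]
    · rw [hρ]
      exact (hτm x (L.c x s)).1
    · obtain ⟨h1, h2⟩ := hτm x (L.c x s)
      rw [L.ci] at h2
      refine Eq.trans ?_ h2
      exact congrArg (L.p x) (Subtype.ext (hρ x s))

end Pool.Agent.PFE.H29
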